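import Pool.Agent.Helper38.RS.Goals2

/-!
# Packet RS-UPB: the upper bound for the S-units

`S_LEM` applied to the group of `S`-units with the endomorphism of `S_EIG`.
-/

namespace Pool.Agent.Helper19.RS

open NumberField Polynomial Module IsDedekindDomain TensorProduct Pool.Agent.Helper51.SigLeo
open Pool.Agent.Helper38.RS

/-- An automorphism of odd order fixes the roots of unity of 2-power order. -/
theorem fix_two_power {K M : Type} [Field K] [Field M] [Algebra K M] (δ : M ≃ₐ[K] M) {m : ℕ}
    (hm : Odd m) (hδ : δ ^ m = 1) (u : Mˣ) (n : ℕ) (hu : u ^ (2 ^ n) = 1) :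
    δ (u : M) = u := by
  classical
  set N := orderOf u with hN
  have hdvd : N ∣ 2 ^ n := orderOf_dvd_of_pow_eq_one hu
  obtain ⟨e, he, hNe⟩ := (Nat.dvd_prime_pow Nat.prime_two).1 hdvd
  have hN0 : N ≠ 0 := by rw [hNe]; positivity
  have : NeZero N := ⟨hN0⟩
  have hprim : IsPrimitiveRoot (u : M) N := by
    have h1 : IsPrimitiveRoot u N := IsPrimitiveRoot.orderOf u
    exact h1.map_of_injective (f := Units.coeHom M) Units.val_injective
  set a : (ZMod N)ˣ := hprim.autToPow K δ with ha
  have ham : a ^ m = 1 := by rw [ha, ← map_pow, hδ, map_one]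
  have h1 : orderOf a ∣ m := orderOf_dvd_of_pow_eq_one ham
  have h2 : orderOf a ∣ N.totient := by
    have := orderOf_dvd_card (x := a)
    rwa [ZMod.card_units_eq_totient] at this
  have h3 : Nat.Coprime m N.totient := by
    rw [hNe]
    rcases Nat.eq_zero_or_pos e with h0 | h0
    · subst h0; simp
    · rw [Nat.totient_prime_pow Nat.prime_two h0]
      simp only [Nat.add_one_sub_one, mul_one]
      exact (Nat.coprime_two_right.2 hm).pow_right _
  have h4 : a = 1 := by
    rw [← orderOf_eq_one_iff]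
    exact Nat.dvd_one.1 (h3 ▸ Nat.dvd_gcd h1 h2)
  have h5 := hprim.autToPow_spec K δ
  rw [← ha, h4] at h5
  rcases Nat.lt_or_ge 1 N with h6 | h6
  · have : Fact (1 < N) := ⟨h6⟩
    rw [Units.val_one, ZMod.val_one, pow_one] at h5
    exact h5.symm
  · have h7 : N = 1 := le_antisymm h6 (Nat.one_le_iff_ne_zero.2 hN0)
    have h8 : u = 1 := orderOf_eq_one_iff.1 (hN ▸ h7)
    rw [h8]; simp

theorem mem_unit_of_sq {M : Type} [Field M] [NumberField M] {S : Set (HeightOneSpectrum (𝓞 M))}
    {x y : Mˣ} (h : x = y ^ 2) (hx : x ∈ S.unit M) : y ∈ S.unit M := by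
  intro v hv
  have h1 := hx v hv
  rw [h] at h1
  have h2 : (v.valuation M) ((y : M)) ^ 2 = 1 := by
    rw [← map_pow]
    simpa using h1
  have h3 : (v.valuation M) ((y : M)) = 1 := by
    rcases lt_trichotomy ((v.valuation M) ((y : M))) 1 with h4 | h4 | h4
    · exact absurd h2 (pow_lt_one' h4 two_ne_zero).ne
    · exact h4
    · exact absurd h2 (one_lt_pow' h4 two_ne_zero).ne'
  exact h3

theorem s_upb (h1 : S_LEM) (h2 : S_EIG) : Pool.Agent.Helper38.RS.S_UPB := by
  intro k _ _ K M _ _ _ _ _ _ _ m d s₀ δ ζ Φ P hΦ hord hfin hdeg S hSfin hSst hSfree F hF hne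
  classical
  have hm1 : 0 < m := lt_trans zero_lt_one hΦ.one_lt
  have : NeZero m := ⟨hm1.ne'⟩
  have hζ' : IsPrimitiveRoot (Complex.exp (2 * Real.pi * Complex.I / m)) m :=
    Complex.isPrimitiveRoot_exp m hm1.ne'
  obtain ⟨D, hD, hfinA, hrank⟩ := h2 K M m d s₀ δ hord hfin hdeg hm1 S hSfin hSst hSfree _ hζ'
  have := hfinA
  set φ : Mˣ →* Mˣ := Units.map ((δ : M →+* M) : M →* M) with hφ
  have hδm : δ ^ m = 1 := by rw [← hord]; exact pow_orderOf_eq_one δ
  -- the iterates
  have hiter : ∀ (j : ℕ) (x : Additive (S.unit M)),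
      (((D^[j] x).toMul : S.unit M) : Mˣ) =
        Units.map (((δ ^ j : M ≃ₐ[K] M) : M →+* M) : M →* M) ((x.toMul : S.unit M) : Mˣ) := by
    intro j
    induction j with
    | zero => intro x; ext; simp
    | succ j ih =>
      intro x
      rw [Function.iterate_succ', Function.comp_apply]
      have h3 := hD (D^[j] x).toMul
      rw [ofMul_toMul, ih x] at h3
      rw [h3]
      ext
      rw [hφ, pow_succ']
      simp only [Units.coe_map, MonoidHom.coe_coe, RingHom.coe_coe]
      rfl
  have hDm : ∀ x : Additive (S.unit M), D^[m] x = x := by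
    intro x
    apply Additive.toMul.injective
    apply Subtype.ext
    rw [hiter m x, hδm]
    ext
    simp
  have hfix : ∀ (x : Additive (S.unit M)) (n : ℕ), 2 ^ n • x = 0 → D x = x := by
    intro x n hx
    apply Additive.toMul.injective
    apply Subtype.ext
    have h3 := hiter 1 x
    rw [Function.iterate_one] at h3
    rw [h3]
    have h4 : ((x.toMul : S.unit M) : Mˣ) ^ (2 ^ n) = 1 := by
      have h5 := congrArg (fun z : Additive (S.unit M) => ((z.toMul : S.unit M) : Mˣ)) hx
      simpa using h5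
    ext
    simpa using fix_two_power δ hΦ.odd hδm _ n h4
  -- the finset
  set f : {x // x ∈ F} → Additive (S.unit M) :=
    fun x => Additive.ofMul (⟨x.1, (hF x.1 x.2).1⟩ : S.unit M) with hf
  have hfinj : Function.Injective f := by
    intro x y hxy
    apply Subtype.ext
    have := congrArg (fun z : Additive (S.unit M) => ((z.toMul : S.unit M) : Mˣ)) hxy
    simpa [hf] using this
  set F' : Finset (Additive (S.unit M)) := F.attach.map ⟨f, hfinj⟩ with hF'
  have hcard : F'.card = F.card := by simp [hF']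
  have key := h1 k m ζ Φ P hΦ (Additive (S.unit M)) D hDm hfix _ hζ' F' ?_ ?_
  · rw [hcard] at key
    exact key.trans (Nat.pow_le_pow_right (by norm_num) (Nat.mul_le_mul_left _ hrank))
  · intro x hx
    obtain ⟨z, -, rfl⟩ := Finset.mem_map.1 hx
    obtain ⟨hz1, y, hy⟩ := hF z.1 z.2
    have hcoe : ∀ (s : Finset ℕ), (((∑ j ∈ s, D^[j] (f z)).toMul : S.unit M) : Mˣ) =
        ∏ j ∈ s, Units.map (((δ ^ j : M ≃ₐ[K] M) : M →+* M) : M →* M) z.1 := by
      intro s
      induction s using Finset.induction_on with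
      | empty => simp
      | insert a s ha ih =>
        rw [Finset.sum_insert ha, Finset.prod_insert ha, ← ih, toMul_add, Subgroup.coe_mul, hiter]
        simp [hf]
    have hpol : (((∑ j ∈ P.support, D^[j] (f z)).toMul : S.unit M) : Mˣ) = y ^ 2 := by
      rw [hcoe, ← hy, pol, MonoidHom.finset_prod_apply]
    have hyS : y ∈ S.unit M := by
      refine mem_unit_of_sq (x := y ^ 2) rfl ?_
      rw [← hpol]
      exact Subtype.property _
    refine ⟨Additive.ofMul (⟨y, hyS⟩ : S.unit M), ?_⟩
    apply Additive.toMul.injective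
    apply Subtype.ext
    show (((∑ j ∈ P.support, D^[j] (f z)).toMul : S.unit M) : Mˣ) = _
    rw [hpol]
    simp
  · intro x hx y hy hxy
    obtain ⟨z, -, rfl⟩ := Finset.mem_map.1 hx
    obtain ⟨w, -, rfl⟩ := Finset.mem_map.1 hy
    rintro ⟨b, hb⟩
    have hzw : z.1 ≠ w.1 := by
      intro h
      exact hxy (congrArg f (Subtype.ext h))
    refine hne z.1 z.2 w.1 w.2 hzw ⟨((b.toMul : S.unit M) : Mˣ), ?_⟩
    have h3 := congrArg (fun z : Additive (S.unit M) => ((z.toMul : S.unit M) : Mˣ)) hb
    have h4 : z.1 = w.1 * ((b.toMul : S.unit M) : Mˣ) ^ 2 := by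
      simpa [hf] using h3
    rw [h4, mul_comm, mul_div_assoc, div_self', mul_one]

end Pool.Agent.Helper19.RS
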